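import Pool.Agent.F5H.StmtsN

/-!
MP_f5cbfa_nt, squad F5H, block N, row NEA: one point near the ray of `m`.
-/

set_option autoImplicit false

open MeasureTheory Filter Topology

namespace Pool.Agent.Helper92_F5H

open Pool.Agent.BTL Pool.Agent.F5S Pool.Agent.F5H Pool.Agent.Helper48_F5

theorem norm_le_of_KM {M : ℝ} {A : ℝ × ℝ × ℝ} (hM : 1 ≤ M) (hA : A ∈ KM M) : ‖A‖ ≤ M := by
  have hM0 : 0 < M := by linarith
  have h1 := hA ((1 : ℝ), (0 : ℝ))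
  have h2 := hA ((0 : ℝ), (1 : ℝ))
  have h3 := hA ((1 : ℝ), (1 : ℝ))
  have h4 := hA ((1 : ℝ), (-1 : ℝ))
  simp only [nr, qf] at h1 h2 h3 h4
  have i0 : 0 ≤ 1 / M := by positivity
  have e1 : ((1 : ℝ) ^ 2 + (0 : ℝ) ^ 2) / M = 1 / M := by norm_num
  have e2 : ((0 : ℝ) ^ 2 + (1 : ℝ) ^ 2) / M = 1 / M := by norm_num
  rw [e1] at h1
  rw [e2] at h2
  refine norm_form_le ?_ ?_ ?_
  · rw [abs_le]; constructor <;> linarith [h1.1, h1.2]
  · rw [abs_le]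
    constructor <;> linarith [h1.1, h1.2, h2.1, h2.2, h3.1, h3.2, h4.1, h4.2]
  · rw [abs_le]; constructor <;> linarith [h2.1, h2.2]

theorem abs_qf_le_nr (A : ℝ × ℝ × ℝ) (x : ℝ × ℝ) : |qf A x| ≤ 2 * ‖A‖ * nr x := by
  have a1 := abs_f1_le A
  have a2 := abs_f2_le A
  have a3 := abs_f3_le A
  have n0 := norm_nonneg A
  have h1 : |A.1 * x.1 ^ 2| ≤ ‖A‖ * x.1 ^ 2 := by
    rw [abs_mul, abs_of_nonneg (sq_nonneg x.1)]
    exact mul_le_mul_of_nonneg_right a1 (sq_nonneg _)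
  have h3 : |A.2.2 * x.2 ^ 2| ≤ ‖A‖ * x.2 ^ 2 := by
    rw [abs_mul, abs_of_nonneg (sq_nonneg x.2)]
    exact mul_le_mul_of_nonneg_right a3 (sq_nonneg _)
  have h2 : |2 * A.2.1 * x.1 * x.2| ≤ ‖A‖ * (x.1 ^ 2 + x.2 ^ 2) := by
    have e : 2 * A.2.1 * x.1 * x.2 = A.2.1 * (2 * x.1 * x.2) := by ring
    rw [e, abs_mul]
    have b : |2 * x.1 * x.2| ≤ x.1 ^ 2 + x.2 ^ 2 := by
      rw [abs_le]; constructor <;> nlinarith [sq_nonneg (x.1 + x.2), sq_nonneg (x.1 - x.2)]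
    exact mul_le_mul a2 b (abs_nonneg _) n0
  have hq : qf A x = A.1 * x.1 ^ 2 + 2 * A.2.1 * x.1 * x.2 + A.2.2 * x.2 ^ 2 := rfl
  rw [hq]
  refine ((abs_add_le _ _).trans (add_le_add (abs_add_le _ _) (le_refl _))).trans ?_
  simp only [nr]
  nlinarith

theorem abs_dr_le (x y : ℝ × ℝ) : |dr x y| ≤ 2 * ‖x‖ * ‖y‖ := by
  have a1 := abs_fst_le x
  have a2 := abs_snd_le x
  have b1 := abs_fst_le y
  have b2 := abs_snd_le y
  have n1 := norm_nonneg x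
  have n2 := norm_nonneg y
  have h1 : |x.1 * y.2| ≤ ‖x‖ * ‖y‖ := by
    rw [abs_mul]; exact mul_le_mul a1 b2 (abs_nonneg _) n1
  have h2 : |x.2 * y.1| ≤ ‖x‖ * ‖y‖ := by
    rw [abs_mul]; exact mul_le_mul a2 b1 (abs_nonneg _) n1
  have : dr x y = x.1 * y.2 - x.2 * y.1 := rfl
  rw [this]
  refine (abs_sub _ _).trans ?_
  linarith

/-- the form `s⁻² Z` at the moved point -/
theorem AW_expand {s c : ℝ} {m m' h u : T3} {Z : ℝ × ℝ × ℝ} {l : Fin 3} (ss : s * s⁻¹ = 1)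
    (hmu : m' l = s • m l + u l) (hZ : AW Z m h l = c) :
    AW (s⁻¹ ^ 2 • Z) m' h l = c + (2 * s⁻¹ * bl Z (m l) (u l) +
      (s⁻¹ ^ 2 * bl Z (u l) (u l) + (s⁻¹ ^ 2 - 1) * (bl Z (h l) (h l) / 4))) := by
  have s2 : s ^ 2 * s⁻¹ ^ 2 = 1 := by rw [← mul_pow, ss, one_pow]
  have s3 : s * s⁻¹ ^ 2 = s⁻¹ := by rw [sq, ← mul_assoc, ss, one_mul]
  have e : bl Z (m' l) (m' l) = s ^ 2 * bl Z (m l) (m l) + (s * (2 * bl Z (m l) (u l)) +
      bl Z (u l) (u l)) := by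
    rw [hmu, bl_add, bl_add', bl_add', bl_smul, bl_smul', bl_smul, bl_smul', bl_comm Z (u l) (m l)]
    ring
  have hZ' : bl Z (m l) (m l) + bl Z (h l) (h l) / 4 = c := by
    rw [bl_self, bl_self]; exact hZ
  rw [AW_smul]
  have e2 : AW Z m' h l = bl Z (m' l) (m' l) + bl Z (h l) (h l) / 4 := by
    rw [bl_self, bl_self]; rfl
  rw [e2, e]
  linear_combination bl Z (m l) (m l) * s2 + 2 * bl Z (m l) (u l) * s3 + hZ'

/-- the core estimate, with the powers of `T` replaced by parameters -/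
theorem core {T Q V θ s : ℝ} {m m' h : T3} {A Z : ℝ × ℝ × ℝ} (hQ : 2 ≤ Q) (hT : Q ^ 30 ≤ T)
    (hθ : Q ^ 30 * θ ≤ 1) (hθ0 : 0 < θ) (hTθ : 1 ≤ T * θ) (hV : V ^ 2 * θ ≤ Q ^ 2 * T)
    (hV2 : 6 * Q ^ 8 * V ^ 2 ≤ T ^ 2) (hs : |s - 1| ≤ θ) (hm : ∀ l, ‖m l‖ ≤ Q * T)
    (hd : ∀ i j, i ≠ j → T ^ 2 ≤ Q * |dr (m i) (m j)|) (hh : ∀ l, ‖h l‖ ≤ V)
    (hZK : Z ∈ KM Q) (hZ : ∀ l, AW Z m h l = T ^ 2)
    (hF : ∀ i j, |bl Z (m i) (h i) - bl Z (m j) (h j)| ≤ Q)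
    (hm' : ∀ l, ‖m' l - s • m l‖ ≤ 1) (hA : ∀ l, |AW A m' h l - T ^ 2| ≤ 1) :
    A ∈ KM (Q ^ 2) ∧ ‖A - Z‖ ≤ Q ^ 22 * θ ∧
    (∀ i j, |bl A (m' i) (h i) - bl A (m' j) (h j)| ≤ Q ^ 26 * (1 + max ‖h i‖ ‖h j‖)) ∧
    (∀ i j, i ≠ j → T ^ 2 ≤ Q ^ 2 * |dr (m' i) (m' j)|) := by
  have hQ0 : 0 < Q := by linarith
  have hQ1 : 1 ≤ Q := by linarith
  have q30 : (2 : ℝ) ^ 30 ≤ Q ^ 30 := pow_le_pow_left₀ (by norm_num) hQ 30
  have hT0 : 0 < T := by
    have : (0 : ℝ) < Q ^ 30 := by positivity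
    linarith
  have hT1 : 1 ≤ T := by
    have : (1 : ℝ) ≤ Q ^ 30 := one_le_pow₀ hQ1
    linarith
  have hθ4 : θ ≤ 1 / 4 := by
    have h1 : (2 : ℝ) ^ 30 * θ ≤ 1 := (mul_le_mul_of_nonneg_right q30 hθ0.le).trans hθ
    nlinarith
  have hs1 : 3 / 4 ≤ s := by rw [abs_le] at hs; linarith [hs.1]
  have hs2 : s ≤ 5 / 4 := by rw [abs_le] at hs; linarith [hs.2]
  have hs0 : 0 < s := by linarith
  have hV0 : 0 ≤ V := (norm_nonneg _).trans (hh 0)
  have hZn : ‖Z‖ ≤ Q := norm_le_of_KM hQ1 hZK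
  obtain ⟨u, hu⟩ : ∃ u : T3, ∀ l, u l = m' l - s • m l := ⟨fun l => m' l - s • m l, fun _ => rfl⟩
  have hu1 : ∀ l, ‖u l‖ ≤ 1 := fun l => by rw [hu]; exact hm' l
  have hmu : ∀ l, m' l = s • m l + u l := fun l => by rw [hu]; abel
  have hQTbig : Q ≤ Q * T := by nlinarith
  -- size of `m'`
  have hm'n : ∀ l, ‖m' l‖ ≤ Q ^ 2 * T := by
    intro l
    rw [hmu l]
    refine (norm_add_le _ _).trans ?_
    rw [norm_smul, Real.norm_eq_abs, abs_of_pos hs0]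
    have h1 : s * ‖m l‖ ≤ 5 / 4 * (Q * T) :=
      mul_le_mul hs2 (hm l) (norm_nonneg _) (by norm_num)
    have h2 := hu1 l
    nlinarith
  -- determinants of `m'`
  have hdr : ∀ i j, i ≠ j → T ^ 2 ≤ Q ^ 2 * |dr (m' i) (m' j)| := by
    intro i j hij
    have e : dr (m' i) (m' j) = s ^ 2 * dr (m i) (m j) + (s * dr (m i) (u j) +
        (s * dr (u i) (m j) + dr (u i) (u j))) := by
      rw [hmu i, hmu j]
      simp only [dr, Prod.fst_add, Prod.snd_add, Prod.smul_fst, Prod.smul_snd, smul_eq_mul]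
      ring
    have b1 : |dr (m i) (u j)| ≤ 2 * (Q * T) := by
      refine (abs_dr_le _ _).trans ?_
      have := hm i
      have h2 := hu1 j
      have n1 := norm_nonneg (m i)
      have n2 := norm_nonneg (u j)
      calc 2 * ‖m i‖ * ‖u j‖ ≤ 2 * ‖m i‖ * 1 := mul_le_mul_of_nonneg_left h2 (by positivity)
        _ ≤ 2 * (Q * T) := by linarith
    have b2 : |dr (u i) (m j)| ≤ 2 * (Q * T) := by
      refine (abs_dr_le _ _).trans ?_
      have := hm j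
      have h2 := hu1 i
      have n1 := norm_nonneg (m j)
      have n2 := norm_nonneg (u i)
      calc 2 * ‖u i‖ * ‖m j‖ ≤ 2 * 1 * ‖m j‖ :=
            mul_le_mul_of_nonneg_right (mul_le_mul_of_nonneg_left h2 (by norm_num)) n1
        _ ≤ 2 * (Q * T) := by linarith
    have b3 : |dr (u i) (u j)| ≤ 2 := by
      refine (abs_dr_le _ _).trans ?_
      have h1 := hu1 i
      have h2 := hu1 j
      have n1 := norm_nonneg (u i)
      have n2 := norm_nonneg (u j)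
      nlinarith
    have c1 : |s * dr (m i) (u j)| ≤ 5 / 4 * (2 * (Q * T)) := by
      rw [abs_mul, abs_of_pos hs0]; exact mul_le_mul hs2 b1 (abs_nonneg _) (by norm_num)
    have c2 : |s * dr (u i) (m j)| ≤ 5 / 4 * (2 * (Q * T)) := by
      rw [abs_mul, abs_of_pos hs0]; exact mul_le_mul hs2 b2 (abs_nonneg _) (by norm_num)
    have c3 : |s * dr (m i) (u j) + (s * dr (u i) (m j) + dr (u i) (u j))| ≤
        5 * (Q * T) + 2 := by
      refine (abs_add_le _ _).trans ((add_le_add (le_refl _) (abs_add_le _ _)).trans ?_)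
      linarith
    have c4 : 9 / 16 * |dr (m i) (m j)| ≤ |s ^ 2 * dr (m i) (m j)| := by
      rw [abs_mul, abs_of_nonneg (sq_nonneg s)]
      exact mul_le_mul_of_nonneg_right (by nlinarith) (abs_nonneg _)
    have c5 : |s ^ 2 * dr (m i) (m j)| - (5 * (Q * T) + 2) ≤ |dr (m' i) (m' j)| := by
      rw [e]
      have := abs_sub_abs_le_abs_sub (s ^ 2 * dr (m i) (m j))
        (-(s * dr (m i) (u j) + (s * dr (u i) (m j) + dr (u i) (u j))))
      rw [abs_neg, sub_neg_eq_add] at this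
      linarith
    have c6 := hd i j hij
    -- multiply by Q²
    have hD : 0 ≤ |dr (m i) (m j)| := abs_nonneg _
    have q4 : Q ^ 4 * 16 ≤ T := by
      have h1 : Q ^ 4 * Q ^ 26 ≤ T := by rw [← pow_add]; exact hT
      have h2 : (2 : ℝ) ^ 26 ≤ Q ^ 26 := pow_le_pow_left₀ (by norm_num) hQ 26
      have h3 : 0 < Q ^ 4 := by positivity
      nlinarith
    have d1 : Q ^ 2 * (9 / 16 * |dr (m i) (m j)| - (5 * (Q * T) + 2)) ≤
        Q ^ 2 * |dr (m' i) (m' j)| :=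
      mul_le_mul_of_nonneg_left (by linarith) (by positivity)
    have d2 : 9 / 16 * Q * T ^ 2 ≤ Q ^ 2 * (9 / 16 * |dr (m i) (m j)|) := by
      have := mul_le_mul_of_nonneg_left c6 (show (0 : ℝ) ≤ 9 / 16 * Q by positivity)
      nlinarith
    have d3 : Q ^ 2 * (5 * (Q * T) + 2) ≤ 7 * Q ^ 3 * T := by
      have h1 : Q ^ 2 ≤ Q ^ 3 * T := by
        have : Q ^ 2 * 1 ≤ Q ^ 2 * (Q * T) :=
          mul_le_mul_of_nonneg_left (by nlinarith) (by positivity)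
        nlinarith
      nlinarith
    have d4 : 7 * Q ^ 3 * T ≤ 7 / 16 / Q * T ^ 2 := by
      rw [div_mul_eq_mul_div, le_div_iff₀ hQ0]
      have := mul_le_mul_of_nonneg_right q4 (show (0 : ℝ) ≤ 7 / 16 * T by positivity)
      nlinarith
    have d5 : 7 / 16 / Q * T ^ 2 ≤ 1 / 16 * Q * T ^ 2 * 2 := by
      have : 7 / 16 / Q ≤ 1 / 16 * Q * 2 := by
        rw [div_le_iff₀ hQ0]; nlinarith
      have := mul_le_mul_of_nonneg_right this (sq_nonneg T)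
      linarith
    nlinarith [sq_nonneg T, mul_le_mul_of_nonneg_right hQ (sq_nonneg T)]
  -- `Ok` at `m'`
  have hreg : Reg (Q ^ 2) T V m' h := by
    refine ⟨hm'n, ?_, hh⟩
    intro i j hij
    rw [div_le_iff₀ (by positivity)]
    have := hdr i j hij
    linarith
  have hok : Ok (6 * (Q ^ 2) ^ 4) T V m' h := by
    refine ok_of_reg (one_le_pow₀ hQ1) hT0 ?_ hreg
    rw [← pow_mul]; exact hV2
  -- the form `A'`
  have sinv : s⁻¹ ≤ 4 / 3 := by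
    rw [inv_le_comm₀ hs0 (by norm_num)]; norm_num; linarith
  have sinv0 : 0 < s⁻¹ := inv_pos.2 hs0
  have ss : s * s⁻¹ = 1 := mul_inv_cancel₀ hs0.ne'
  have sinv2 : s⁻¹ ^ 2 ≤ 16 / 9 := by nlinarith
  have sdiff : |s⁻¹ ^ 2 - 1| ≤ 4 * θ := by
    have e : s⁻¹ ^ 2 - 1 = -((s - 1) * ((1 + s) * s⁻¹ ^ 2)) := by
      have : s ^ 2 * s⁻¹ ^ 2 = 1 := by rw [← mul_pow, ss, one_pow]
      linear_combination this
    rw [e, abs_neg, abs_mul]
    have h1 : |(1 + s) * s⁻¹ ^ 2| ≤ 4 := by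
      rw [abs_of_pos (by positivity)]
      nlinarith [sq_nonneg (s⁻¹)]
    calc |s - 1| * |(1 + s) * s⁻¹ ^ 2| ≤ θ * 4 := mul_le_mul hs h1 (abs_nonneg _) hθ0.le
      _ = 4 * θ := by ring
  have hAA : ∀ l, |AW (A - s⁻¹ ^ 2 • Z) m' h l| ≤ Q ^ 9 * T := by
    intro l
    have e : AW (A - s⁻¹ ^ 2 • Z) m' h l = (AW A m' h l - T ^ 2) - (2 * s⁻¹ * bl Z (m l) (u l) +
        (s⁻¹ ^ 2 * bl Z (u l) (u l) + (s⁻¹ ^ 2 - 1) * (bl Z (h l) (h l) / 4))) := by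
      rw [AW_sub, AW_expand ss (hmu l) (hZ l)]
      ring
    rw [e]
    have b1 : |bl Z (m l) (u l)| ≤ 4 * Q * (Q * T) * 1 := blb hZn (hm l) (hu1 l)
    have b2 : |bl Z (u l) (u l)| ≤ 4 * Q * 1 * 1 := blb hZn (hu1 l) (hu1 l)
    have b3 : |bl Z (h l) (h l)| ≤ 4 * Q * V * V := blb hZn (hh l) (hh l)
    have c1 : |2 * s⁻¹ * bl Z (m l) (u l)| ≤ 2 * (4 / 3) * (4 * Q * (Q * T) * 1) := by
      rw [abs_mul, abs_of_pos (show 0 < 2 * s⁻¹ by positivity)]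
      exact mul_le_mul (by linarith) b1 (abs_nonneg _) (by norm_num)
    have c2 : |s⁻¹ ^ 2 * bl Z (u l) (u l)| ≤ 16 / 9 * (4 * Q * 1 * 1) := by
      rw [abs_mul, abs_of_pos (show 0 < s⁻¹ ^ 2 by positivity)]
      exact mul_le_mul sinv2 b2 (abs_nonneg _) (by norm_num)
    have c3 : |(s⁻¹ ^ 2 - 1) * (bl Z (h l) (h l) / 4)| ≤ 4 * θ * (Q * V ^ 2) := by
      rw [abs_mul]
      refine mul_le_mul sdiff ?_ (abs_nonneg _) (by positivity)
      rw [abs_div, abs_of_pos (show (0 : ℝ) < 4 by norm_num)]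
      rw [div_le_iff₀ (by norm_num)]
      nlinarith
    have c3' : 4 * θ * (Q * V ^ 2) ≤ 4 * (Q * (Q ^ 2 * T)) := by
      have := mul_le_mul_of_nonneg_left hV (show 0 ≤ 4 * Q by positivity)
      nlinarith
    have c4 := hA l
    refine (abs_sub _ _).trans ?_
    have c5 : |2 * s⁻¹ * bl Z (m l) (u l) + (s⁻¹ ^ 2 * bl Z (u l) (u l) +
        (s⁻¹ ^ 2 - 1) * (bl Z (h l) (h l) / 4))| ≤
        2 * (4 / 3) * (4 * Q * (Q * T) * 1) + (16 / 9 * (4 * Q * 1 * 1) +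
          4 * (Q * (Q ^ 2 * T))) := by
      refine (abs_add_le _ _).trans (add_le_add c1 ((abs_add_le _ _).trans ?_))
      exact add_le_add c2 (c3.trans c3')
    refine (add_le_add c4 c5).trans ?_
    -- everything is at most Q^3 T
    have f1 : (1 : ℝ) ≤ Q ^ 3 * T := by
      have : (1 : ℝ) ≤ Q ^ 3 := one_le_pow₀ hQ1
      nlinarith
    have f2 : Q * (Q * T) ≤ Q ^ 3 * T := by
      have : Q ^ 2 ≤ Q ^ 3 := pow_le_pow_right₀ hQ1 (by norm_num)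
      nlinarith
    have f3 : Q ≤ Q ^ 3 * T := by
      have : Q ^ 1 ≤ Q ^ 3 := pow_le_pow_right₀ hQ1 (by norm_num)
      nlinarith
    have f4 : 32 * (Q ^ 3 * T) ≤ Q ^ 9 * T := by
      have h1 : (2 : ℝ) ^ 6 ≤ Q ^ 6 := pow_le_pow_left₀ (by norm_num) hQ 6
      have h2 : Q ^ 9 * T = Q ^ 6 * (Q ^ 3 * T) := by ring
      rw [h2]
      exact mul_le_mul_of_nonneg_right (by linarith) (by positivity)
    nlinarith
  have hAn : ‖A - s⁻¹ ^ 2 • Z‖ ≤ Q ^ 20 / T := by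
    have h1 := hok.inv _ _ hAA
    refine h1.trans ?_
    have e : 6 * (Q ^ 2) ^ 4 * (Q ^ 9 * T) / T ^ 2 = 6 * Q ^ 17 / T := by
      field_simp
    rw [e]
    refine div_le_div_of_nonneg_right ?_ hT0.le
    have h3 : (2 : ℝ) ^ 3 ≤ Q ^ 3 := pow_le_pow_left₀ (by norm_num) hQ 3
    have h4 : Q ^ 20 = Q ^ 3 * Q ^ 17 := by ring
    rw [h4]
    exact mul_le_mul_of_nonneg_right (by linarith) (by positivity)
  have hTi : Q ^ 20 / T ≤ Q ^ 20 * θ := by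
    rw [div_le_iff₀ hT0, mul_assoc]
    have : 1 ≤ θ * T := by linarith
    nlinarith [show (0 : ℝ) < Q ^ 20 by positivity]
  have hAZ : ‖A - Z‖ ≤ Q ^ 22 * θ := by
    have e : A - Z = (A - s⁻¹ ^ 2 • Z) + (s⁻¹ ^ 2 - 1) • Z := by
      rw [sub_smul, one_smul]; abel
    rw [e]
    refine (norm_add_le _ _).trans ?_
    rw [norm_smul, Real.norm_eq_abs]
    have h1 : |s⁻¹ ^ 2 - 1| * ‖Z‖ ≤ 4 * θ * Q := mul_le_mul sdiff hZn (norm_nonneg _) (by positivity)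
    have h2 : 4 * Q ≤ Q ^ 20 := by
      have a1 : (2 : ℝ) ^ 19 ≤ Q ^ 19 := pow_le_pow_left₀ (by norm_num) hQ 19
      have a2 : Q ^ 20 = Q ^ 19 * Q := by ring
      rw [a2]
      exact mul_le_mul_of_nonneg_right (by linarith) hQ0.le
    have h3 : Q ^ 20 * θ * 2 ≤ Q ^ 22 * θ := by
      have a1 : (2 : ℝ) ^ 2 ≤ Q ^ 2 := pow_le_pow_left₀ (by norm_num) hQ 2
      have a2 : Q ^ 22 * θ = Q ^ 2 * (Q ^ 20 * θ) := by ring
      have a3 : 0 ≤ Q ^ 20 * θ := by positivity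
      rw [a2]
      nlinarith
    have h4 : 4 * θ * Q ≤ Q ^ 20 * θ := by
      have := mul_le_mul_of_nonneg_right h2 hθ0.le
      nlinarith
    linarith [hAn, hTi]
  refine ⟨?_, hAZ, ?_, hdr⟩
  · -- `A` is in `KM (Q²)`
    intro x
    have hx : 0 ≤ nr x := by unfold nr; positivity
    have h1 := hZK x
    have h2 := abs_qf_le_nr (A - Z) x
    have h3 : qf A x = qf Z x + qf (A - Z) x := by
      simp only [qf, Prod.fst_sub, Prod.snd_sub]; ring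
    have h4 : ‖A - Z‖ ≤ 1 / (4 * Q) := by
      refine hAZ.trans ?_
      rw [le_div_iff₀ (by positivity)]
      have a1 : (2 : ℝ) ^ 2 ≤ Q ^ 7 := by
        calc (2 : ℝ) ^ 2 ≤ 2 ^ 7 := by norm_num
          _ ≤ Q ^ 7 := pow_le_pow_left₀ (by norm_num) hQ 7
      have a2 : Q ^ 22 * θ * (4 * Q) ≤ Q ^ 30 * θ := by
        have e : Q ^ 30 * θ = Q ^ 7 * (Q ^ 23 * θ) := by ring
        have e2 : Q ^ 22 * θ * (4 * Q) = 4 * (Q ^ 23 * θ) := by ring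
        rw [e, e2]
        exact mul_le_mul_of_nonneg_right (by linarith) (by positivity)
      linarith
    have h5 : 2 * ‖A - Z‖ * nr x ≤ nr x / (2 * Q) := by
      have := mul_le_mul_of_nonneg_right h4 hx
      have e : nr x / (2 * Q) = 2 * (1 / (4 * Q) * nr x) := by field_simp; ring
      rw [e]; linarith
    rw [abs_le] at h2
    have h6 : nr x / Q ^ 2 ≤ nr x / (2 * Q) := by
      refine div_le_div_of_nonneg_left hx (by positivity) ?_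
      nlinarith
    have h7 : nr x / Q = nr x / (2 * Q) + nr x / (2 * Q) := by field_simp; ring
    have h8 : nr x / (2 * Q) ≤ nr x := div_le_self hx (by linarith)
    have h9 : Q * nr x + nr x ≤ Q ^ 2 * nr x := by
      have : Q + 1 ≤ Q ^ 2 := by nlinarith
      nlinarith
    rw [h3]
    constructor
    · linarith [h1.1, h2.1]
    · linarith [h1.2, h2.2]
  · intro i j
    have hpr : ∀ l, bl A (m' l) (h l) = bl (A - s⁻¹ ^ 2 • Z) (m' l) (h l) +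
        (s⁻¹ ^ 2 * bl Z (u l) (h l) + s⁻¹ * bl Z (m l) (h l)) := by
      intro l
      rw [bl_sub_form, bl_smul_form]
      have e : bl Z (m' l) (h l) = s * bl Z (m l) (h l) + bl Z (u l) (h l) := by
        rw [hmu l, bl_add, bl_smul]
      rw [e]
      have s3 : s⁻¹ ^ 2 * s = s⁻¹ := by rw [sq, mul_assoc, inv_mul_cancel₀ hs0.ne', mul_one]
      linear_combination (bl Z (m l) (h l)) * s3
    have t1 : ∀ l, |bl (A - s⁻¹ ^ 2 • Z) (m' l) (h l)| ≤ 4 * Q ^ 22 * ‖h l‖ := by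
      intro l
      have := blb hAn (hm'n l) (le_refl ‖h l‖)
      refine this.trans (le_of_eq ?_)
      field_simp
    have t2 : ∀ l, |s⁻¹ ^ 2 * bl Z (u l) (h l)| ≤ 8 * Q * ‖h l‖ := by
      intro l
      have h1 := blb hZn (hu1 l) (le_refl ‖h l‖)
      rw [abs_mul, abs_of_pos (show 0 < s⁻¹ ^ 2 by positivity)]
      have h2 : s⁻¹ ^ 2 * |bl Z (u l) (h l)| ≤ 16 / 9 * (4 * Q * 1 * ‖h l‖) :=
        mul_le_mul sinv2 h1 (abs_nonneg _) (by norm_num)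
      have h3 : 0 ≤ Q * ‖h l‖ := by positivity
      nlinarith
    have t3 : |s⁻¹ * bl Z (m i) (h i) - s⁻¹ * bl Z (m j) (h j)| ≤ 4 / 3 * Q := by
      rw [← mul_sub, abs_mul, abs_of_pos sinv0]
      exact mul_le_mul sinv (hF i j) (abs_nonneg _) (by norm_num)
    obtain ⟨μ, hμ⟩ : ∃ μ, μ = max ‖h i‖ ‖h j‖ := ⟨_, rfl⟩
    rw [← hμ]
    have m1 : ‖h i‖ ≤ μ := by rw [hμ]; exact le_max_left _ _
    have m2 : ‖h j‖ ≤ μ := by rw [hμ]; exact le_max_right _ _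
    have m0 : 0 ≤ μ := (norm_nonneg _).trans m1
    rw [hpr i, hpr j]
    have a1 := t1 i
    have a2 := t1 j
    have a3 := t2 i
    have a4 := t2 j
    have q22 : 0 < Q ^ 22 := by positivity
    have k1 : 4 * Q ^ 22 * ‖h i‖ ≤ 4 * Q ^ 22 * μ := mul_le_mul_of_nonneg_left m1 (by positivity)
    have k2 : 4 * Q ^ 22 * ‖h j‖ ≤ 4 * Q ^ 22 * μ := mul_le_mul_of_nonneg_left m2 (by positivity)
    have k3 : 8 * Q * ‖h i‖ ≤ 8 * Q * μ := mul_le_mul_of_nonneg_left m1 (by positivity)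
    have k4 : 8 * Q * ‖h j‖ ≤ 8 * Q * μ := mul_le_mul_of_nonneg_left m2 (by positivity)
    have hfin : 8 * Q ^ 22 * μ + 16 * Q * μ + 4 / 3 * Q ≤ Q ^ 26 * (1 + μ) := by
      have r1 : (2 : ℝ) ^ 4 ≤ Q ^ 4 := pow_le_pow_left₀ (by norm_num) hQ 4
      have r2 : Q ^ 26 = Q ^ 4 * Q ^ 22 := by ring
      have r3 : 2 * Q ≤ Q ^ 22 := by
        have a1 : (2 : ℝ) ^ 21 ≤ Q ^ 21 := pow_le_pow_left₀ (by norm_num) hQ 21
        have a2 : Q ^ 22 = Q ^ 21 * Q := by ring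
        rw [a2]
        exact mul_le_mul_of_nonneg_right (by linarith) hQ0.le
      have r4 : 16 * Q ^ 22 ≤ Q ^ 26 := by
        rw [r2]; exact mul_le_mul_of_nonneg_right (by linarith) q22.le
      have r5 := mul_le_mul_of_nonneg_right r4 m0
      have r6 := mul_le_mul_of_nonneg_right r3 m0
      nlinarith
    rw [abs_le] at a1 a2 a3 a4 t3 ⊢
    constructor <;> linarith [a1.1, a1.2, a2.1, a2.2, a3.1, a3.2, a4.1, a4.2, t3.1, t3.2]

theorem t3_norm_le (h : R6) (l : Fin 3) : ‖t3 h l‖ ≤ ‖h‖ := by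
  fin_cases l
  · exact norm_fst_le h
  · exact (norm_fst_le h.2).trans (norm_snd_le h)
  · exact (norm_snd_le h.2).trans (norm_snd_le h)

theorem result_NEA : BN.NEAStmt := by
  refine ⟨30, ?_⟩
  intro T Q hQ hQT h m m' k A hh hR hk hm' hA
  have hQ0 : 0 < Q := by linarith
  have hQ1 : 1 ≤ Q := by linarith
  have q30 : (2 : ℝ) ^ 30 ≤ Q ^ 30 := pow_le_pow_left₀ (by norm_num) hQ 30
  have hT0 : 0 < T := by
    have h1 := (norm_nonneg _).trans (hR.hm 0)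
    rcases lt_trichotomy T 0 with h2 | h2 | h2
    · exact absurd (mul_neg_of_pos_of_neg hQ0 h2) (not_lt.2 h1)
    · rw [h2, Real.zero_rpow (by norm_num)] at hQT
      linarith
    · exact h2
  have hT1 : 1 ≤ T := by
    by_contra hc
    have h1 : T ^ (1 / 100000 : ℝ) ≤ 1 := Real.rpow_le_one hT0.le (not_le.1 hc).le (by norm_num)
    linarith
  have mono : ∀ a b : ℝ, a ≤ b → T ^ a ≤ T ^ b := fun a b hab => Real.rpow_le_rpow_of_exponent_le hT1 hab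
  obtain ⟨θ, hθd⟩ : ∃ θ : ℝ, θ = T ^ (-(13 / 25) : ℝ) := ⟨_, rfl⟩
  have hθ0 : 0 < θ := by rw [hθd]; exact Real.rpow_pos_of_pos hT0 _
  have hTQ : Q ^ 30 ≤ T := by
    refine hQT.trans ?_
    have := mono (1 / 100000) 1 (by norm_num)
    rwa [Real.rpow_one] at this
  have hθ1 : Q ^ 30 * θ ≤ 1 := by
    calc Q ^ 30 * θ ≤ T ^ (1 / 100000 : ℝ) * T ^ (-(13 / 25) : ℝ) := by
          rw [hθd]
          exact mul_le_mul_of_nonneg_right hQT (Real.rpow_nonneg hT0.le _)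
      _ = T ^ (1 / 100000 + -(13 / 25) : ℝ) := (Real.rpow_add hT0 _ _).symm
      _ ≤ T ^ (0 : ℝ) := mono _ _ (by norm_num)
      _ = 1 := Real.rpow_zero _
  have hTθ : 1 ≤ T * θ := by
    calc (1 : ℝ) = T ^ (0 : ℝ) := (Real.rpow_zero _).symm
      _ ≤ T ^ (1 + -(13 / 25) : ℝ) := mono _ _ (by norm_num)
      _ = T ^ (1 : ℝ) * T ^ (-(13 / 25) : ℝ) := Real.rpow_add hT0 _ _
      _ = T * θ := by rw [Real.rpow_one, hθd]
  have hks : |(1 + k / T) - 1| ≤ θ := by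
    rw [add_sub_cancel_left, abs_div, abs_of_pos hT0, div_le_iff₀ hT0]
    refine hk.trans (le_of_eq ?_)
    calc T ^ (12 / 25 : ℝ) = T ^ (-(13 / 25) + 1 : ℝ) := by norm_num
      _ = T ^ (-(13 / 25) : ℝ) * T ^ (1 : ℝ) := Real.rpow_add hT0 _ _
      _ = θ * T := by rw [Real.rpow_one, hθd]
  have hLx : Lx T ^ 2 = T ^ (277 / 250 : ℝ) := by
    unfold Lx
    rw [← Real.rpow_natCast, ← Real.rpow_mul hT0.le]
    norm_num
  have hVn : ∀ l, ‖t3 h l‖ ≤ Q * Lx T := fun l => (t3_norm_le h l).trans hh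
  have hV : (Q * Lx T) ^ 2 * θ ≤ Q ^ 2 * T := by
    rw [mul_pow, hLx, mul_assoc]
    refine mul_le_mul_of_nonneg_left ?_ (by positivity)
    calc T ^ (277 / 250 : ℝ) * θ = T ^ (277 / 250 + -(13 / 25) : ℝ) := by
          rw [hθd]; exact (Real.rpow_add hT0 _ _).symm
      _ ≤ T ^ (1 : ℝ) := mono _ _ (by norm_num)
      _ = T := Real.rpow_one _
  have hV2 : 6 * Q ^ 8 * (Q * Lx T) ^ 2 ≤ T ^ 2 := by
    rw [mul_pow, hLx]
    have h1 : 6 * Q ^ 8 * Q ^ 2 ≤ Q ^ 30 := by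
      have a1 : (2 : ℝ) ^ 20 ≤ Q ^ 20 := pow_le_pow_left₀ (by norm_num) hQ 20
      have a2 : Q ^ 30 = Q ^ 20 * Q ^ 10 := by ring
      have a3 : 6 * Q ^ 8 * Q ^ 2 = 6 * Q ^ 10 := by ring
      rw [a2, a3]
      exact mul_le_mul_of_nonneg_right (by linarith) (by positivity)
    calc 6 * Q ^ 8 * (Q ^ 2 * T ^ (277 / 250 : ℝ)) = (6 * Q ^ 8 * Q ^ 2) * T ^ (277 / 250 : ℝ) := by
          ring
      _ ≤ T ^ (1 / 100000 : ℝ) * T ^ (277 / 250 : ℝ) :=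
          mul_le_mul_of_nonneg_right (h1.trans hQT) (Real.rpow_nonneg hT0.le _)
      _ = T ^ (1 / 100000 + 277 / 250 : ℝ) := (Real.rpow_add hT0 _ _).symm
      _ ≤ T ^ (2 : ℝ) := mono _ _ (by norm_num)
      _ = T ^ 2 := Real.rpow_two _
  have hok : Ok (6 * Q ^ 4) T (Q * Lx T) (t3 m) (t3 h) := by
    refine ok_of_reg hQ1 hT0 ?_ ⟨hR.hm, ?_, hVn⟩
    · refine le_trans ?_ hV2
      have : Q ^ 4 ≤ Q ^ 8 := pow_le_pow_right₀ hQ1 (by norm_num)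
      exact mul_le_mul_of_nonneg_right (by linarith) (sq_nonneg _)
    · intro i j hij
      rw [div_le_iff₀ hQ0]
      have := hR.hd i j hij
      linarith
  have hZ : ∀ l, AW (Zf T (t3 m) (t3 h)) (t3 m) (t3 h) l = T ^ 2 := fun l =>
    AW_sol hok (fun _ => T ^ 2) l
  obtain ⟨r1, r2, r3, r4⟩ := core (s := 1 + k / T) hQ hTQ hθ1 hθ0 hTθ hV hV2 hks hR.hm hR.hd hVn
    hR.hZ hZ hR.hF hm' hA
  have hpow : ∀ n : ℕ, n ≤ 30 → Q ^ n ≤ Q ^ 30 := fun n hn => pow_le_pow_right₀ hQ1 hn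
  refine ⟨?_, ?_, ?_, ?_⟩
  · intro x
    have hx : 0 ≤ nr x := by unfold nr; positivity
    have h1 := r1 x
    constructor
    · refine le_trans ?_ h1.1
      exact div_le_div_of_nonneg_left hx (by positivity) (hpow 2 (by norm_num))
    · exact h1.2.trans (mul_le_mul_of_nonneg_right (hpow 2 (by norm_num)) hx)
  · rw [← hθd]
    exact r2.trans (mul_le_mul_of_nonneg_right (hpow 22 (by norm_num)) hθ0.le)
  · intro i j
    refine (r3 i j).trans (mul_le_mul_of_nonneg_right (hpow 26 (by norm_num)) ?_)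
    have : 0 ≤ max ‖t3 h i‖ ‖t3 h j‖ := (norm_nonneg _).trans (le_max_left _ _)
    linarith
  · intro i j hij
    exact (r4 i j hij).trans (mul_le_mul_of_nonneg_right (hpow 2 (by norm_num)) (abs_nonneg _))

end Pool.Agent.Helper92_F5H
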