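import Pool.Agent.Helper36_F5H.StmtsK

/-!
MP_f5cbfa_nt, squad F5H, row K_ERB: a real inequality.
-/

set_option autoImplicit false

namespace Pool.Agent.F5H.K2.H92

open Pool.Agent.Helper68_F5 Pool.Agent.F5H.K2

/-- one bracket -/
theorem bracket {M V R s z w : ℝ} (hM : 1 ≤ M) (hs : 1 ≤ s) (hR : R = s ^ 2) (hV : 0 < V)
    (hsV : s ≤ 2 * M * V) (hz : 0 < z) (hw : w ≤ M * max 1 (V / z)) :
    1 / V + 1 / s + w / R + V / R ^ 2 ≤ 4 * M * (1 / s + V * (1 / (z * R) + 1 / R ^ 2)) := by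
  have hs0 : 0 < s := by linarith
  have hR0 : 0 < R := by rw [hR]; positivity
  have h1 : 1 / V ≤ 2 * M / s := by
    rw [div_le_div_iff₀ hV hs0]
    linarith
  have h2 : w ≤ M * (1 + V / z) := by
    refine hw.trans (mul_le_mul_of_nonneg_left ?_ (by linarith))
    have : 0 ≤ V / z := by positivity
    exact max_le (by linarith) (by linarith)
  have h3 : w / R ≤ M * (1 + V / z) / R := div_le_div_of_nonneg_right h2 hR0.le
  have h4 : M * (1 + V / z) / R = M / R + M * (V * (1 / (z * R))) := by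
    field_simp
  have h5 : M / R ≤ M / s := by
    apply div_le_div_of_nonneg_left (by linarith) hs0
    rw [hR]
    nlinarith
  have h6 : 2 * M / s = 2 * M * (1 / s) := by ring
  have h7 : M / s = M * (1 / s) := by ring
  have h8 : V / R ^ 2 = V * (1 / R ^ 2) := by ring
  have p1 : 0 < 1 / s := by positivity
  have p2 : 0 < V * (1 / (z * R)) := by positivity
  have p3 : 0 < V * (1 / R ^ 2) := by positivity
  have q1 : 1 / s ≤ M * (1 / s) := by nlinarith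
  have q3 : V * (1 / R ^ 2) ≤ 4 * M * (V * (1 / R ^ 2)) := by nlinarith
  have q2 : M * (V * (1 / (z * R))) ≤ 4 * M * (V * (1 / (z * R))) := by nlinarith
  have e1 : 4 * M * (1 / s + V * (1 / (z * R) + 1 / R ^ 2)) =
    4 * M * (1 / s) + 4 * M * (V * (1 / (z * R))) + 4 * M * (V * (1 / R ^ 2)) := by ring
  rw [e1, h8]
  linarith

theorem erb : ERBStmt := by
  intro M V₁ V₂ k0 R R₁ z ω₁ ω₂ hM hV2 hV12 hV22 hk0 hR hR1 hRR hRk hRV hz hzk hw1 hw2 hw1' hw2'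
  obtain ⟨s, hs0, hsR⟩ : ∃ s : ℝ, 0 ≤ s ∧ R = s ^ 2 :=
    ⟨√R, Real.sqrt_nonneg _, (Real.sq_sqrt (by linarith)).symm⟩
  obtain ⟨t, ht0, htR⟩ : ∃ t : ℝ, 0 ≤ t ∧ R₁ = t ^ 2 :=
    ⟨√R₁, Real.sqrt_nonneg _, (Real.sq_sqrt (by linarith)).symm⟩
  have hsq : √R = s := by rw [hsR]; exact Real.sqrt_sq hs0
  have htq : √R₁ = t := by rw [htR]; exact Real.sqrt_sq ht0
  rw [htq] at hzk
  have hs1 : 1 ≤ s := by
    by_contra h
    rw [not_le] at h
    nlinarith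
  have ht1 : 1 ≤ t := by
    by_contra h
    rw [not_le] at h
    nlinarith
  have hM0 : 0 < M := by linarith
  have hV20 : 0 < V₂ := by linarith
  have hV10 : 0 < V₁ := by linarith
  have hst : s ≤ 2 * M * t := by
    apply le_of_sq_le_sq _ (by positivity)
    have h1 : (2 * M * t) ^ 2 = (2 * M) * (2 * M * t ^ 2) := by ring
    rw [h1, ← hsR, ← htR]
    have h2 : 0 ≤ 2 * M * R₁ := by positivity
    nlinarith
  have htV : t ≤ V₂ := by
    by_contra h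
    rw [not_le] at h
    have h1 : V₂ ^ 4 < t ^ 4 := pow_lt_pow_left₀ h hV20.le (by norm_num)
    have h2 : t ^ 4 = R₁ ^ 2 := by rw [htR]; ring
    have h3 : V₁ * V₂ ≤ V₂ ^ 2 * V₂ := mul_le_mul_of_nonneg_right hV22 hV20.le
    have h4 : V₂ ^ 2 * V₂ ≤ V₂ ^ 4 := by
      have : 0 ≤ V₂ ^ 3 := by positivity
      nlinarith
    linarith
  have hsV : s ≤ 2 * M * V₂ := hst.trans (mul_le_mul_of_nonneg_left htV (by positivity))
  have hsV1 : s ≤ 2 * M * V₁ := hsV.trans (mul_le_mul_of_nonneg_left hV12 (by positivity))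
  have hzV : t * k0 ≤ z * V₂ := hzk.trans (mul_le_mul_of_nonneg_left (min_le_right _ _) hz.le)
  have hzt : t ≤ z := by
    have h1 : t * k0 ≤ z * k0 := hzk.trans (mul_le_mul_of_nonneg_left (min_le_left _ _) hz.le)
    exact le_of_mul_le_mul_right h1 (by linarith)
  have b1 := bracket hM hs1 hsR hV10 hsV1 hz hw1'
  have b2 := bracket hM hs1 hsR hV20 hsV hz hw2'
  have hR0 : 0 < R := by linarith
  have hsp : 0 < s := by linarith
  set c : ℝ := 1 / (z * R) + 1 / R ^ 2 with hc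
  have hc0 : 0 < c := by positivity
  unfold ER
  rw [hsq]
  have hprod : (1 / V₁ + 1 / s + ω₁ / R + V₁ / R ^ 2) * (1 / V₂ + 1 / s + ω₂ / R + V₂ / R ^ 2) ≤
      (4 * M * (1 / s + V₁ * c)) * (4 * M * (1 / s + V₂ * c)) := by
    apply mul_le_mul b1 b2 _ (by positivity)
    have : 0 ≤ ω₂ := by linarith
    positivity
  refine (mul_le_mul_of_nonneg_left hprod (by positivity)).trans ?_
  have e1 : R ^ 3 / (V₁ * V₂) * (4 * M * (1 / s + V₁ * c) * (4 * M * (1 / s + V₂ * c))) =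
      16 * M ^ 2 * (s ^ 4 / (V₁ * V₂) + s ^ 5 * c / V₂ + s ^ 5 * c / V₁ + s ^ 6 * c ^ 2) := by
    rw [hsR]
    field_simp
    ring
  rw [e1]
  have t1 : s ^ 4 / (V₁ * V₂) ≤ 4 * M ^ 2 := by
    rw [div_le_iff₀ (by positivity)]
    have h1 : s ^ 4 = R ^ 2 := by rw [hsR]; ring
    rw [h1]
    calc R ^ 2 ≤ (2 * M * R₁) ^ 2 := pow_le_pow_left₀ hR0.le hRR 2
      _ = 4 * M ^ 2 * R₁ ^ 2 := by ring
      _ ≤ 4 * M ^ 2 * (V₁ * V₂) := mul_le_mul_of_nonneg_left hRV (by positivity)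
  have t2a : s ^ 3 / (z * V₂) ≤ 4 * M ^ 2 := by
    rw [div_le_iff₀ (by positivity)]
    have h1 : s ^ 3 = s * R := by rw [hsR]; ring
    rw [h1]
    calc s * R ≤ (2 * M * t) * (2 * M * R₁) := mul_le_mul hst hRR hR0.le (by positivity)
      _ = 4 * M ^ 2 * (t * R₁) := by ring
      _ ≤ 4 * M ^ 2 * (t * k0) := by
        apply mul_le_mul_of_nonneg_left _ (by positivity)
        exact mul_le_mul_of_nonneg_left hRk ht0
      _ ≤ 4 * M ^ 2 * (z * V₂) := mul_le_mul_of_nonneg_left hzV (by positivity)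
  have t2b : s / V₂ ≤ 2 * M := by
    rw [div_le_iff₀ hV20]
    exact hsV
  have t2 : s ^ 5 * c / V₂ = s ^ 3 / (z * V₂) + s / V₂ := by
    rw [hc, hsR]
    field_simp
  have t3 : s ^ 5 * c / V₁ ≤ s ^ 5 * c / V₂ :=
    div_le_div_of_nonneg_left (by positivity) hV20 hV12
  have t4a : s ^ 2 / z ^ 2 ≤ 2 * M := by
    rw [div_le_iff₀ (by positivity)]
    have h1 : t ^ 2 ≤ z ^ 2 := pow_le_pow_left₀ ht0 hzt 2
    rw [← hsR]
    calc R ≤ 2 * M * R₁ := hRR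
      _ ≤ 2 * M * z ^ 2 := by
        apply mul_le_mul_of_nonneg_left _ (by positivity)
        rw [htR]
        exact h1
  have t4b : 1 / s ^ 2 ≤ 1 := by
    rw [div_le_one (by positivity)]
    nlinarith
  have t4 : s ^ 6 * c ^ 2 ≤ 2 * (s ^ 2 / z ^ 2) + 2 * (1 / s ^ 2) := by
    have h1 : s ^ 6 * c ^ 2 = (s / z + 1 / s) ^ 2 := by
      rw [hc, hsR]
      field_simp
    have h2 : (s / z) ^ 2 = s ^ 2 / z ^ 2 := div_pow _ _ _
    have h3 : (1 / s) ^ 2 = 1 / s ^ 2 := by rw [div_pow, one_pow]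
    rw [h1, ← h2, ← h3]
    nlinarith [sq_nonneg (s / z - 1 / s)]
  have hfin : s ^ 4 / (V₁ * V₂) + s ^ 5 * c / V₂ + s ^ 5 * c / V₁ + s ^ 6 * c ^ 2 ≤ 22 * M ^ 2 := by
    rw [t2] at t3 ⊢
    nlinarith
  calc 16 * M ^ 2 * (s ^ 4 / (V₁ * V₂) + s ^ 5 * c / V₂ + s ^ 5 * c / V₁ + s ^ 6 * c ^ 2)
      ≤ 16 * M ^ 2 * (22 * M ^ 2) := mul_le_mul_of_nonneg_left hfin (by positivity)
    _ = 352 * M ^ 4 := by ring
    _ ≤ 10 ^ 4 * M ^ 5 := by
      have : 0 ≤ M ^ 4 := by positivity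
      nlinarith

end Pool.Agent.F5H.K2.H92
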