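import Pool.Agent.F5H.StmtsD

/-!
MP_f5cbfa_nt, squad F5H, row C_NUM: the numerical inequality `NUMStmt`.
Every size is written as a power of `T`; the inequality becomes a piecewise linear one.
-/

set_option autoImplicit false

namespace Pool.Agent.F5H.BC.H92

open Pool.Agent.F5H Pool.Agent.F5H.BC

theorem tmax {T : ℝ} (hT : 1 < T) (a b : ℝ) : max (T ^ a) (T ^ b) = T ^ (max a b) := by
  rcases le_total a b with h | h
  · rw [max_eq_right h, max_eq_right (Real.rpow_le_rpow_of_exponent_le hT.le h)]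
  · rw [max_eq_left h, max_eq_left (Real.rpow_le_rpow_of_exponent_le hT.le h)]

theorem tmin {T : ℝ} (hT : 1 < T) (a b : ℝ) : min (T ^ a) (T ^ b) = T ^ (min a b) := by
  rcases le_total a b with h | h
  · rw [min_eq_left h, min_eq_left (Real.rpow_le_rpow_of_exponent_le hT.le h)]
  · rw [min_eq_right h, min_eq_right (Real.rpow_le_rpow_of_exponent_le hT.le h)]

theorem tmin1 {T : ℝ} (hT : 1 < T) (a : ℝ) : min 1 (T ^ a) = T ^ (min 0 a) := by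
  rw [← tmin hT, Real.rpow_zero]

theorem tmax1 {T : ℝ} (hT : 1 < T) (a : ℝ) : max 1 (T ^ a) = T ^ (max 0 a) := by
  rw [← tmax hT, Real.rpow_zero]

theorem tmul {T : ℝ} (hT : 1 < T) (a b : ℝ) : T ^ a * T ^ b = T ^ (a + b) :=
  (Real.rpow_add (by linarith) a b).symm

theorem tdiv {T : ℝ} (hT : 1 < T) (a b : ℝ) : T ^ a / T ^ b = T ^ (a - b) :=
  (Real.rpow_sub (by linarith) a b).symm

theorem tdiv1 {T : ℝ} (hT : 1 < T) (a : ℝ) : T ^ a / T = T ^ (a - 1) :=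
  (Real.rpow_sub_one (by linarith) a).symm

theorem tsqrt {T : ℝ} (hT : 1 < T) (a : ℝ) : √(T ^ a) = T ^ (a / 2) := by
  rw [Real.sqrt_eq_rpow, ← Real.rpow_mul (by linarith)]
  ring_nf

theorem tp2 {T : ℝ} (hT : 1 < T) (a : ℝ) : (T ^ a) ^ 2 = T ^ (a * 2) := by
  rw [← Real.rpow_natCast, ← Real.rpow_mul (by linarith)]
  norm_num

theorem tp3 {T : ℝ} (hT : 1 < T) (a : ℝ) : (T ^ a) ^ 3 = T ^ (a * 3) := by
  rw [← Real.rpow_natCast, ← Real.rpow_mul (by linarith)]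
  norm_num

theorem trp {T : ℝ} (hT : 1 < T) (a b : ℝ) : (T ^ a) ^ b = T ^ (a * b) := by
  rw [← Real.rpow_mul (by linarith)]

theorem tt2 (T : ℝ) : T ^ 2 = T ^ (2 : ℝ) := by
  rw [← Real.rpow_natCast]
  norm_num

/-- exponent of the gain -/
noncomputable def eg (v0 v2 k d r : ℝ) : ℝ :=
  max (v0 - 1) (max ((v0 - 1) / 2 - k) ((v0 - 1) + 2 * v2 - 2 * k - 2 * r)) +
    min 0 (max ((v0 - 1) / 2 * 3) (-(97 / 100)) + max k (2 - d - k - 2 * v0))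

theorem gain_eq {T : ℝ} (hT : 1 < T) (v0 v1 v2 k d : ℝ) :
    gain T ![T ^ v0, T ^ v1, T ^ v2] (T ^ k) (T ^ d) =
      T ^ (eg v0 v2 k d (669 / 500 + 2 * rho0 - 1)) := by
  simp only [gain, kap, kpr, Rx, Matrix.cons_val_zero, Matrix.cons_val]
  rw [tt2 T]
  simp only [tdiv1 hT, tsqrt hT, tp2 hT, tp3 hT, tmul hT, tdiv hT, tmax hT, tmin1 hT]
  unfold eg
  congr 1
  have a1 : (v0 - 1) / 2 * 2 = v0 - 1 := by ring
  have a2 : ((v0 - 1) / 2 + v2 - (k + (669 / 500 + 2 * rho0 - 1))) * 2 =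
    (v0 - 1) + 2 * v2 - 2 * k - 2 * (669 / 500 + 2 * rho0 - 1) := by ring
  have a3 : 2 - (d + k + v0 * 2) = 2 - d - k - 2 * v0 := by ring
  rw [a1, a2, a3]

/-- the linear inequality, first part -/
theorem lp1 (v0 v1 v2 k d r : ℝ) (hr : r ≤ 338 / 1000 + 1 / 10000000) (hr1 : 338 / 1000 ≤ r)
    (h2 : 0 ≤ v2) (h21 : v2 ≤ v1) (h10 : v1 ≤ v0) (h0 : v0 ≤ 277 / 500 + 1 / 10000)
    (hl : 677 / 2000 - 1 / 10000 ≤ v1) (hk : 0 ≤ k) (hk0 : k ≤ v0) (hd : -k ≤ d) (hd1 : d ≤ 0)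
    (hn : v0 ≤ 53 / 100 ∨ v1 ≤ 1 / 2 ∨ v2 ≤ 11 / 25 ∨ k ≤ 11 / 25) :
    v0 + v1 + (v2 + min v2 r) + eg v0 v2 k d r + (min k v1 + max 0 (k - (v0 + v1) / 2)) ≤
      399 / 200 := by
  have m1 : min v2 r ≤ v2 := min_le_left _ _
  have m2 : min v2 r ≤ r := min_le_right _ _
  have m3 : min k v1 ≤ k := min_le_left _ _
  have m4 : min k v1 ≤ v1 := min_le_right _ _
  unfold eg
  have m5 := min_le_left (0 : ℝ) (max ((v0 - 1) / 2 * 3) (-(97 / 100)) + max k (2 - d - k - 2 * v0))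
  have m6 := min_le_right (0 : ℝ) (max ((v0 - 1) / 2 * 3) (-(97 / 100)) + max k (2 - d - k - 2 * v0))
  generalize min (0 : ℝ) (max ((v0 - 1) / 2 * 3) (-(97 / 100)) + max k (2 - d - k - 2 * v0)) = u at *
  generalize min v2 r = a at *
  generalize min k v1 = b at *
  have c1 : max (v0 - 1) (max ((v0 - 1) / 2 - k) ((v0 - 1) + 2 * v2 - 2 * k - 2 * r)) = v0 - 1 ∨
      max (v0 - 1) (max ((v0 - 1) / 2 - k) ((v0 - 1) + 2 * v2 - 2 * k - 2 * r)) =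
        (v0 - 1) / 2 - k ∨
      max (v0 - 1) (max ((v0 - 1) / 2 - k) ((v0 - 1) + 2 * v2 - 2 * k - 2 * r)) =
        (v0 - 1) + 2 * v2 - 2 * k - 2 * r := by
    rcases max_choice (v0 - 1) (max ((v0 - 1) / 2 - k) ((v0 - 1) + 2 * v2 - 2 * k - 2 * r)) with h | h
    · exact Or.inl h
    · right
      rw [h]
      exact max_choice _ _
  generalize max (v0 - 1) (max ((v0 - 1) / 2 - k) ((v0 - 1) + 2 * v2 - 2 * k - 2 * r)) = g at *
  have c2 := max_choice ((v0 - 1) / 2 * 3) (-(97 / 100) : ℝ)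
  have c3 := max_choice k (2 - d - k - 2 * v0)
  have c4 := max_choice 0 (k - (v0 + v1) / 2)
  have l2 := le_max_left ((v0 - 1) / 2 * 3) (-(97 / 100) : ℝ)
  have l3 := le_max_right ((v0 - 1) / 2 * 3) (-(97 / 100) : ℝ)
  have l4 := le_max_left k (2 - d - k - 2 * v0)
  have l5 := le_max_right k (2 - d - k - 2 * v0)
  generalize max ((v0 - 1) / 2 * 3) (-(97 / 100) : ℝ) = x at *
  generalize max k (2 - d - k - 2 * v0) = y at *
  generalize max 0 (k - (v0 + v1) / 2) = z at *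
  rcases c1 with c1 | c1 | c1 <;> rcases c2 with c2 | c2 <;> rcases c3 with c3 | c3 <;>
    rcases c4 with c4 | c4 <;> rcases hn with hn | hn | hn | hn <;> linarith

/-- the linear inequality, second part -/
theorem lp2 (v0 v1 v2 k d r : ℝ) (hr : r ≤ 338 / 1000 + 1 / 10000000) (hr1 : 338 / 1000 ≤ r)
    (h2 : 0 ≤ v2) (h21 : v2 ≤ v1) (h10 : v1 ≤ v0) (h0 : v0 ≤ 277 / 500 + 1 / 10000)
    (hk0 : k ≤ v0) (hd : -k ≤ d) (hd1 : d ≤ 0)
    (n0 : 53 / 100 ≤ v0) (n1 : 1 / 2 ≤ v1) (n2 : 11 / 25 ≤ v2) (n3 : 11 / 25 ≤ k) :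
    v0 + v1 + (v2 + r) + eg v0 v2 k d r + (min k v1 + max 0 (k - (v0 + v1) / 2)) +
      min 0 (max (d * (2 / 5)) (k * (-(1 / 5))) + (v0 - v1) * (5 / 2)) ≤
      999 / 500 := by
  have m3 : min k v1 ≤ k := min_le_left _ _
  have m4 : min k v1 ≤ v1 := min_le_right _ _
  have m7 := min_le_left (0 : ℝ) (max (d * (2 / 5)) (k * (-(1 / 5))) + (v0 - v1) * (5 / 2))
  have m8 := min_le_right (0 : ℝ) (max (d * (2 / 5)) (k * (-(1 / 5))) + (v0 - v1) * (5 / 2))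
  generalize min (0 : ℝ) (max (d * (2 / 5)) (k * (-(1 / 5))) + (v0 - v1) * (5 / 2)) = w at *
  unfold eg
  have m5 := min_le_left (0 : ℝ) (max ((v0 - 1) / 2 * 3) (-(97 / 100)) + max k (2 - d - k - 2 * v0))
  have m6 := min_le_right (0 : ℝ) (max ((v0 - 1) / 2 * 3) (-(97 / 100)) + max k (2 - d - k - 2 * v0))
  generalize min (0 : ℝ) (max ((v0 - 1) / 2 * 3) (-(97 / 100)) + max k (2 - d - k - 2 * v0)) = u at *
  generalize min k v1 = b at *
  have c1 : max (v0 - 1) (max ((v0 - 1) / 2 - k) ((v0 - 1) + 2 * v2 - 2 * k - 2 * r)) = v0 - 1 ∨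
      max (v0 - 1) (max ((v0 - 1) / 2 - k) ((v0 - 1) + 2 * v2 - 2 * k - 2 * r)) =
        (v0 - 1) / 2 - k ∨
      max (v0 - 1) (max ((v0 - 1) / 2 - k) ((v0 - 1) + 2 * v2 - 2 * k - 2 * r)) =
        (v0 - 1) + 2 * v2 - 2 * k - 2 * r := by
    rcases max_choice (v0 - 1) (max ((v0 - 1) / 2 - k) ((v0 - 1) + 2 * v2 - 2 * k - 2 * r)) with h | h
    · exact Or.inl h
    · right
      rw [h]
      exact max_choice _ _
  generalize max (v0 - 1) (max ((v0 - 1) / 2 - k) ((v0 - 1) + 2 * v2 - 2 * k - 2 * r)) = g at *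
  have c2 := max_choice ((v0 - 1) / 2 * 3) (-(97 / 100) : ℝ)
  have c3 := max_choice k (2 - d - k - 2 * v0)
  have c4 := max_choice 0 (k - (v0 + v1) / 2)
  have c6 := max_choice (d * (2 / 5)) (k * (-(1 / 5)))
  have l2 := le_max_left ((v0 - 1) / 2 * 3) (-(97 / 100) : ℝ)
  have l3 := le_max_right ((v0 - 1) / 2 * 3) (-(97 / 100) : ℝ)
  have l4 := le_max_left k (2 - d - k - 2 * v0)
  have l5 := le_max_right k (2 - d - k - 2 * v0)
  generalize max (d * (2 / 5)) (k * (-(1 / 5))) = p at *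
  generalize max ((v0 - 1) / 2 * 3) (-(97 / 100) : ℝ) = x at *
  generalize max k (2 - d - k - 2 * v0) = y at *
  generalize max 0 (k - (v0 + v1) / 2) = z at *
  rcases c1 with c1 | c1 | c1 <;> rcases c2 with c2 | c2 <;> rcases c3 with c3 | c3 <;>
    rcases c4 with c4 | c4 <;> rcases c6 with c6 | c6 <;> linarith

theorem part1 {T : ℝ} (hT : 1 < T) (v0 v1 v2 k d : ℝ)
    (h2 : 0 ≤ v2) (h21 : v2 ≤ v1) (h10 : v1 ≤ v0) (h0 : v0 ≤ 277 / 500 + 1 / 10000)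
    (hl : 677 / 2000 - 1 / 10000 ≤ v1) (hk : 0 ≤ k) (hk0 : k ≤ v0) (hd : -k ≤ d) (hd1 : d ≤ 0)
    (hn : v0 ≤ 53 / 100 ∨ v1 ≤ 1 / 2 ∨ v2 ≤ 11 / 25 ∨ k ≤ 11 / 25) :
    T ^ v0 * T ^ v1 * (T ^ v2 * min (T ^ v2) (Rx T / T)) *
      gain T ![T ^ v0, T ^ v1, T ^ v2] (T ^ k) (T ^ d) *
      (min (T ^ k) (T ^ v1) * max 1 (T ^ k / √(T ^ v0 * T ^ v1))) ≤ 4 * T ^ (399 / 200 : ℝ) := by
  have hT0 : 0 < T := by linarith
  rw [gain_eq hT]
  simp only [Rx, tdiv1 hT, tmin hT, tmul hT, tsqrt hT, tdiv hT, tmax1 hT]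
  have hr : 669 / 500 + 2 * rho0 - 1 ≤ 338 / 1000 + 1 / 10000000 := by
    unfold rho0
    norm_num
  have hr1 : 338 / 1000 ≤ 669 / 500 + 2 * rho0 - 1 := by
    unfold rho0
    norm_num
  have := lp1 v0 v1 v2 k d (669 / 500 + 2 * rho0 - 1) hr hr1 h2 h21 h10 h0 hl hk hk0 hd hd1 hn
  have h3 := Real.rpow_le_rpow_of_exponent_le hT.le this
  have h4 : 0 ≤ T ^ (399 / 200 : ℝ) := (Real.rpow_pos_of_pos hT0 _).le
  linarith

theorem part2 {T : ℝ} (hT : 1 < T) (v0 v1 v2 k d : ℝ)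
    (h2 : 0 ≤ v2) (h21 : v2 ≤ v1) (h10 : v1 ≤ v0) (h0 : v0 ≤ 277 / 500 + 1 / 10000)
    (hk0 : k ≤ v0) (hd : -k ≤ d) (hd1 : d ≤ 0)
    (n0 : 53 / 100 ≤ v0) (n1 : 1 / 2 ≤ v1) (n2 : 11 / 25 ≤ v2) (n3 : 11 / 25 ≤ k) :
    T ^ v0 * T ^ v1 * (T ^ v2 * (Rx T / T)) *
      gain T ![T ^ v0, T ^ v1, T ^ v2] (T ^ k) (T ^ d) *
      (min (T ^ k) (T ^ v1) * max 1 (T ^ k / √(T ^ v0 * T ^ v1))) *
      min 1 (F2c ![T ^ v0, T ^ v1, T ^ v2] (T ^ k) (T ^ d)) ≤ 4 * T ^ (999 / 500 : ℝ) := by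
  have hT0 : 0 < T := by linarith
  have hF : F2c ![T ^ v0, T ^ v1, T ^ v2] (T ^ k) (T ^ d) ≤
      2 * T ^ (max (d * (2 / 5)) (k * (-(1 / 5))) + (v0 - v1) * (5 / 2)) := by
    simp only [F2c, Matrix.cons_val_zero, Matrix.cons_val_one]
    rw [trp hT, trp hT, tdiv hT, trp hT, ← tmul hT, ← tmax hT]
    have a1 := le_max_left (T ^ (d * (2 / 5))) (T ^ (k * (-(1 / 5))))
    have a2 := le_max_right (T ^ (d * (2 / 5))) (T ^ (k * (-(1 / 5))))
    have a3 : 0 ≤ T ^ ((v0 - v1) * (5 / 2)) := (Real.rpow_pos_of_pos hT0 _).le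
    rw [← mul_assoc]
    exact mul_le_mul_of_nonneg_right (by linarith) a3
  have hG : min 1 (F2c ![T ^ v0, T ^ v1, T ^ v2] (T ^ k) (T ^ d)) ≤
      2 * T ^ (min 0 (max (d * (2 / 5)) (k * (-(1 / 5))) + (v0 - v1) * (5 / 2))) := by
    rw [← tmin1 hT]
    rcases le_total 1 (T ^ (max (d * (2 / 5)) (k * (-(1 / 5))) + (v0 - v1) * (5 / 2))) with h | h
    · rw [min_eq_left h]
      have := min_le_left 1 (F2c ![T ^ v0, T ^ v1, T ^ v2] (T ^ k) (T ^ d))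
      linarith
    · rw [min_eq_right h]
      exact (min_le_right _ _).trans hF
  rw [gain_eq hT]
  simp only [Rx, tdiv1 hT, tmin hT, tmul hT, tsqrt hT, tdiv hT, tmax1 hT]
  refine (mul_le_mul_of_nonneg_left hG (Real.rpow_pos_of_pos hT0 _).le).trans ?_
  rw [mul_left_comm, tmul hT]
  have hr : 669 / 500 + 2 * rho0 - 1 ≤ 338 / 1000 + 1 / 10000000 := by
    unfold rho0
    norm_num
  have hr1 : 338 / 1000 ≤ 669 / 500 + 2 * rho0 - 1 := by
    unfold rho0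
    norm_num
  have := lp2 v0 v1 v2 k d (669 / 500 + 2 * rho0 - 1) hr hr1 h2 h21 h10 h0 hk0 hd hd1 n0 n1 n2 n3
  have h3 := Real.rpow_le_rpow_of_exponent_le hT.le this
  have h4 : 0 ≤ T ^ (999 / 500 : ℝ) := (Real.rpow_pos_of_pos hT0 _).le
  linarith

/-- row C_NUM of squad F5H -/
theorem num : NUMStmt := by
  intro T V k0 del hT h2 h21 h10 h0 hl hk hk0 hd hd1
  have hT0 : 0 < T := by linarith
  have hT1 : T ≠ 1 := hT.ne'
  have hV2 : 0 < V 2 := by linarith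
  have hV1 : 0 < V 1 := by linarith
  have hV0 : 0 < V 0 := by linarith
  have hk1 : 0 < k0 := by linarith
  have hdp : 0 < del := lt_of_lt_of_le (inv_pos.2 hk1) hd
  have e0 : T ^ Real.logb T (V 0) = V 0 := Real.rpow_logb hT0 hT1 hV0
  have e1 : T ^ Real.logb T (V 1) = V 1 := Real.rpow_logb hT0 hT1 hV1
  have e2 : T ^ Real.logb T (V 2) = V 2 := Real.rpow_logb hT0 hT1 hV2
  have ek : T ^ Real.logb T k0 = k0 := Real.rpow_logb hT0 hT1 hk1
  have ed : T ^ Real.logb T del = del := Real.rpow_logb hT0 hT1 hdp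
  have hV : V = ![T ^ Real.logb T (V 0), T ^ Real.logb T (V 1), T ^ Real.logb T (V 2)] := by
    rw [e0, e1, e2]
    funext i
    fin_cases i <;> rfl
  have up : ∀ {x : ℝ} (a : ℝ), 0 < x → x ≤ T ^ a → Real.logb T x ≤ a := by
    intro x a hx h
    have := Real.logb_le_logb_of_le hT hx h
    rwa [Real.logb_rpow hT0 hT1] at this
  have dn : ∀ {x : ℝ} (a : ℝ), 0 < x → T ^ a ≤ x → a ≤ Real.logb T x := by
    intro x a hx h
    have := Real.logb_le_logb_of_le hT (Real.rpow_pos_of_pos hT0 a) h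
    rwa [Real.logb_rpow hT0 hT1] at this
  have g2 : 0 ≤ Real.logb T (V 2) := Real.logb_nonneg hT h2
  have g21 : Real.logb T (V 2) ≤ Real.logb T (V 1) := Real.logb_le_logb_of_le hT hV2 h21
  have g10 : Real.logb T (V 1) ≤ Real.logb T (V 0) := Real.logb_le_logb_of_le hT hV1 h10
  have g0 := up _ hV0 h0
  have gl := dn _ hV1 hl
  have gk : 0 ≤ Real.logb T k0 := Real.logb_nonneg hT hk
  have gk0 : Real.logb T k0 ≤ Real.logb T (V 0) := Real.logb_le_logb_of_le hT hk1 hk0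
  have gd : -Real.logb T k0 ≤ Real.logb T del := by
    have := Real.logb_le_logb_of_le hT (inv_pos.2 hk1) hd
    rwa [Real.logb_inv] at this
  have gd1 : Real.logb T del ≤ 0 := Real.logb_nonpos hT hdp.le hd1
  constructor
  · intro hn
    have hn' : Real.logb T (V 0) ≤ 53 / 100 ∨ Real.logb T (V 1) ≤ 1 / 2 ∨
        Real.logb T (V 2) ≤ 11 / 25 ∨ Real.logb T k0 ≤ 11 / 25 := by
      by_contra hc
      push Not at hc
      obtain ⟨c0, c1, c2, c3⟩ := hc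
      apply hn
      refine ⟨?_, ?_, ?_, ?_⟩
      · rw [← e0]
        exact Real.rpow_le_rpow_of_exponent_le hT.le c0.le
      · rw [← e1]
        exact Real.rpow_le_rpow_of_exponent_le hT.le c1.le
      · rw [← e2]
        exact Real.rpow_le_rpow_of_exponent_le hT.le c2.le
      · rw [← ek]
        exact Real.rpow_le_rpow_of_exponent_le hT.le c3.le
    have := part1 hT _ _ _ _ _ g2 g21 g10 g0 gl gk gk0 gd gd1 hn'
    rwa [← hV, e0, e1, e2, ek, ed] at this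
  · rintro ⟨c0, c1, c2, c3⟩
    have := part2 hT _ _ _ _ _ g2 g21 g10 g0 gk0 gd gd1 (dn _ hV0 c0) (dn _ hV1 c1)
      (dn _ hV2 c2) (dn _ hk1 c3)
    rwa [← hV, e0, e1, e2, ek, ed] at this

end Pool.Agent.F5H.BC.H92
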